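import Mathlib

/-!
# Resource burning against review spam: no bound sublinear in `T` holds

The conjecture asks for an algorithm and a constant `c` with `E[C] ≤ c (E[T]^(2/3) + E[P_G])` for
every number `L` of time steps and every adversary. It is false, for every exponent below `1` in
place of `2/3`, and already for adversaries that fix all posts in advance, make exactly `g` good
posts in every time step (`g` a constant) and at most `K` spam posts in every time step.
The exponent `1` is attained by the algorithm that always charges `1`: then `C = T + P_G`.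

Proof: the expected cost of a post is determined by the earlier posts. Put `M = c + 1`. In every
time step the adversary makes a spam post as long as the expected cost is at most `M`, and a good
post otherwise, until there are `g` good posts or `K` spam posts (then the remaining good posts
follow). With `s` spam posts per time step this gives `E[T] ≤ M s` and
`E[C] ≥ min (s + M g, K) ≥ s / 2 + M g`.
-/

set_option autoImplicit false

namespace Pool.Agent.Results.MP_590456_lc.NoSublinearBound

open MeasureTheory
open scoped ENNReal NNReal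

universe u

/-- A pricing algorithm. It draws a private random seed. The cost it fixes for a post is a
nonnegative real number that depends on the seed, on the list of all earlier published posts (for
each of them, the time step of the post and the label given to it by the classifier, where `true`
stands for `spam`) and on the current time step. -/
structure Pricing where
  /-- the possible random seeds -/
  Seed : Type u
  [mSeed : MeasurableSpace Seed]
  /-- the distribution of the seed -/
  law : Measure Seed
  [prob : IsProbabilityMeasure law]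
  /-- the cost of a post, given the seed, the labelled earlier posts and the current time step -/
  cost : Seed → List (ℕ × Bool) → ℕ → ℝ≥0
  measurable_cost : ∀ h t, Measurable fun r => cost r h t

attribute [instance] Pricing.mSeed Pricing.prob

/-- The published posts in their order are given by a list of pairs: the time step of the post, and
whether it is spam (`true`) or legitimate (`false`). `labelled posts err` replaces the second
entries by the labels of the classifier, where `err i` says whether the label of the `i`-th post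
is wrong. -/
def labelled (posts : List (ℕ × Bool)) (err : ℕ → Bool) : List (ℕ × Bool) :=
  posts.mapIdx fun i p => (p.1, xor p.2 (err i))

/-- The cost of the `i`-th post. -/
def price (A : Pricing.{u}) (posts : List (ℕ × Bool)) (z : A.Seed × (ℕ → Bool))
    (i : Fin posts.length) : ℝ≥0∞ :=
  A.cost z.1 (labelled (posts.take i) z.2) posts[i].1

/-- The probability space: the seed of the algorithm and, independently of it, the classifier
errors `err 0, err 1, …`, which are independent and equal to `true` with probability `ε`. -/
noncomputable def randomness (A : Pricing.{u}) (ε : unitInterval) :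
    Measure (A.Seed × (ℕ → Bool)) :=
  A.law.prod (Measure.infinitePi fun _ : ℕ => ProbabilityTheory.bernoulliMeasure true false ε)

/-- `T`: the total cost paid on spam posts, divided by the number `L` of time steps. -/
noncomputable def rateT (A : Pricing.{u}) (posts : List (ℕ × Bool)) (L : ℕ)
    (z : A.Seed × (ℕ → Bool)) : ℝ≥0∞ :=
  (∑ i : Fin posts.length, if posts[i].2 = true then price A posts z i else 0) / L

/-- `P_G`: the number of legitimate posts, divided by `L`. -/
noncomputable def rateG (posts : List (ℕ × Bool)) (L : ℕ) : ℝ≥0∞ :=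
  (∑ i : Fin posts.length, if posts[i].2 = true then 0 else 1) / L

/-- `C`: the number of spam posts plus the total cost paid on legitimate posts, divided by `L`. -/
noncomputable def rateC (A : Pricing.{u}) (posts : List (ℕ × Bool)) (L : ℕ)
    (z : A.Seed × (ℕ → Bool)) : ℝ≥0∞ :=
  (∑ i : Fin posts.length, if posts[i].2 = true then 1 else price A posts z i) / L

/-- The algorithm that always charges `1`. -/
noncomputable def chargeOne : Pricing.{u} where
  Seed := PUnit
  law := Measure.dirac PUnit.unit
  cost := fun _ _ _ => 1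
  measurable_cost := fun _ _ => measurable_const

/-! ### Proof -/

/-- total version of the cost of a post that follows the posts `p` -/
def nextCost (A : Pricing.{u}) (p : List (ℕ × Bool)) (t : ℕ) (z : A.Seed × (ℕ → Bool)) : ℝ≥0∞ :=
  A.cost z.1 (labelled p z.2) t

lemma measurable_labelled (p : List (ℕ × Bool)) :
    @Measurable _ _ _ ⊤ (fun e : ℕ → Bool => labelled p e) := by
  induction p using List.reverseRecOn with
  | nil =>
    simp only [labelled, List.mapIdx_nil]
    exact @measurable_const _ _ ⊤ _ _
  | append_singleton l x ih =>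
    have h : (fun e : ℕ → Bool => labelled (l ++ [x]) e)
        = fun e => labelled l e ++ [(x.1, xor x.2 (e l.length))] := by
      funext e
      simp [labelled, List.mapIdx_append]
    rw [h]
    intro s _
    have : (fun e : ℕ → Bool => labelled l e ++ [(x.1, xor x.2 (e l.length))]) ⁻¹' s
        = ⋃ b : Bool, ({e | e l.length = b} ∩
          (fun e => labelled l e) ⁻¹' {h | h ++ [(x.1, xor x.2 b)] ∈ s}) := by
      ext e
      simp
    rw [this]
    refine MeasurableSet.iUnion fun b => MeasurableSet.inter ?_ ?_
    · exact measurableSet_eq_fun (measurable_pi_apply _) measurable_const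
    · exact ih trivial

lemma measurable_nextCost (A : Pricing.{u}) (p : List (ℕ × Bool)) (t : ℕ) :
    Measurable (nextCost A p t) := by
  have h1 : Measurable (fun z : A.Seed × (ℕ → Bool) => A.cost z.1 (labelled p z.2) t) := by
    intro s hs
    have : (fun z : A.Seed × (ℕ → Bool) => A.cost z.1 (labelled p z.2) t) ⁻¹' s
        = ⋃ h : List (ℕ × Bool), ((fun z : A.Seed × (ℕ → Bool) => A.cost z.1 h t) ⁻¹' s) ∩
          (Prod.snd ⁻¹' {e : ℕ → Bool | labelled p e = h}) := by
      ext z
      simp
    rw [this]
    refine MeasurableSet.iUnion fun h => MeasurableSet.inter ?_ ?_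
    · exact (A.measurable_cost h t).comp measurable_fst hs
    · have h3 : MeasurableSet ((fun e : ℕ → Bool => labelled p e) ⁻¹' {h}) :=
        measurable_labelled p trivial
      exact measurable_snd h3
  exact measurable_coe_nnreal_ennreal.comp h1

section

variable (A : Pricing.{u}) (μ : Measure (A.Seed × (ℕ → Bool)))

/-- expected cost of the next post -/
noncomputable def q (p : List (ℕ × Bool)) (t : ℕ) : ℝ≥0∞ := ∫⁻ z, nextCost A p t z ∂μ

/-- a generic sum over the posts -/
noncomputable def tot (f : Bool → ℝ≥0∞ → ℝ≥0∞) (p : List (ℕ × Bool)) (z : A.Seed × (ℕ → Bool)) :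
    ℝ≥0∞ :=
  ∑ i : Fin p.length, f p[i].2 (price A p z i)

lemma tot_nil (f : Bool → ℝ≥0∞ → ℝ≥0∞) (z) : tot A f [] z = 0 := by simp [tot]

lemma tot_append (f : Bool → ℝ≥0∞ → ℝ≥0∞) (p : List (ℕ × Bool)) (x : ℕ × Bool) (z) :
    tot A f (p ++ [x]) z = tot A f p z + f x.2 (nextCost A p x.1 z) := by
  unfold tot
  have hl : (p ++ [x]).length = p.length + 1 := by simp
  rw [Fin.sum_congr' (fun i : Fin (p ++ [x]).length => f (p ++ [x])[i].2 (price A (p ++ [x]) z i))
    hl.symm |>.symm]
  rw [Fin.sum_univ_castSucc]
  congr 1
  · refine Finset.sum_congr rfl fun i _ => ?_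
    have hi : (i : ℕ) < p.length := i.2
    simp only [price, Fin.getElem_fin, Fin.val_cast, Fin.val_castSucc]
    rw [List.getElem_append_left hi, List.take_append_of_le_length hi.le]
  · simp only [price, Fin.getElem_fin, Fin.val_cast, Fin.val_last, nextCost]
    simp

/-- spam cost, as an expectation -/
noncomputable def eT (p : List (ℕ × Bool)) : ℝ≥0∞ :=
  ∫⁻ z, tot A (fun b x => if b = true then x else 0) p z ∂μ

/-- cost of the algorithm, as an expectation -/
noncomputable def eC (p : List (ℕ × Bool)) : ℝ≥0∞ :=
  ∫⁻ z, tot A (fun b x => if b = true then 1 else x) p z ∂μ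

lemma eT_append_spam (p : List (ℕ × Bool)) (t : ℕ) :
    eT A μ (p ++ [(t, true)]) = eT A μ p + q A μ p t := by
  unfold eT q
  rw [← lintegral_add_right _ (measurable_nextCost A p t)]
  simp [tot_append]

lemma eT_append_good (p : List (ℕ × Bool)) (t : ℕ) :
    eT A μ (p ++ [(t, false)]) = eT A μ p := by
  unfold eT
  simp [tot_append]

lemma eC_append_spam [IsProbabilityMeasure μ] (p : List (ℕ × Bool)) (t : ℕ) :
    eC A μ (p ++ [(t, true)]) = eC A μ p + 1 := by
  unfold eC
  simp only [tot_append, if_true]
  rw [lintegral_add_right _ measurable_const]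
  simp

lemma eC_append_good (p : List (ℕ × Bool)) (t : ℕ) :
    eC A μ (p ++ [(t, false)]) = eC A μ p + q A μ p t := by
  unfold eC q
  rw [← lintegral_add_right _ (measurable_nextCost A p t)]
  simp [tot_append]

/-- One time step. -/
lemma step [IsProbabilityMeasure μ] (M : ℝ≥0∞) (t : ℕ) (n : ℕ) : ∀ (g K : ℕ), g + K = n →
    ∀ p : List (ℕ × Bool), ∃ (b : List (ℕ × Bool)) (s : ℕ), (∀ x ∈ b, x.1 = t) ∧
      b.count (t, false) = g ∧ b.count (t, true) = s ∧ s ≤ K ∧
      eT A μ (p ++ b) ≤ eT A μ p + M * s ∧
      (eC A μ p + s + M * g ≤ eC A μ (p ++ b) ∨ (s = K ∧ eC A μ p + s ≤ eC A μ (p ++ b))) := by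
  induction n with
  | zero =>
    intro g K h p
    obtain ⟨rfl, rfl⟩ : g = 0 ∧ K = 0 := by omega
    exact ⟨[], 0, by simp, by simp, by simp, le_rfl, by simp, Or.inl (by simp)⟩
  | succ n ih =>
    intro g K h p
    rcases Nat.eq_zero_or_pos g with rfl | hg
    · exact ⟨[], 0, by simp, by simp, by simp, Nat.zero_le _, by simp, Or.inl (by simp)⟩
    rcases Nat.eq_zero_or_pos K with rfl | hK
    · -- only good posts remain
      obtain ⟨b, s, h1, h2, h3, h4, h5, h6⟩ := ih (g - 1) 0 (by omega) (p ++ [(t, false)])
      refine ⟨(t, false) :: b, s, ?_, ?_, ?_, h4, ?_, Or.inr ⟨by omega, ?_⟩⟩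
      · intro x hx
        rcases List.mem_cons.1 hx with rfl | hx
        · rfl
        · exact h1 x hx
      · rw [List.count_cons_self, h2]; omega
      · rw [List.count_cons_of_ne (by simp), h3]
      · have : p ++ (t, false) :: b = p ++ [(t, false)] ++ b := by simp
        rw [this]
        refine h5.trans ?_
        rw [eT_append_good]
      · have : p ++ (t, false) :: b = p ++ [(t, false)] ++ b := by simp
        rw [this]
        have h0 : eC A μ p ≤ eC A μ (p ++ [(t, false)]) := by
          rw [eC_append_good]; exact le_self_add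
        rcases h6 with h6 | h6
        · refine le_trans ?_ h6
          refine le_trans ?_ le_self_add
          gcongr
        · refine le_trans ?_ h6.2
          gcongr
    by_cases hq : q A μ p t ≤ M
    · -- spam
      obtain ⟨b, s, h1, h2, h3, h4, h5, h6⟩ := ih g (K - 1) (by omega) (p ++ [(t, true)])
      refine ⟨(t, true) :: b, s + 1, ?_, ?_, ?_, by omega, ?_, ?_⟩
      · intro x hx
        rcases List.mem_cons.1 hx with rfl | hx
        · rfl
        · exact h1 x hx
      · rw [List.count_cons_of_ne (by simp), h2]
      · rw [List.count_cons_self, h3]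
      · have : p ++ (t, true) :: b = p ++ [(t, true)] ++ b := by simp
        rw [this]
        refine h5.trans ?_
        rw [eT_append_spam]
        push_cast
        rw [mul_add, mul_one, add_assoc, add_comm (q A μ p t)]
        gcongr
      · have : p ++ (t, true) :: b = p ++ [(t, true)] ++ b := by simp
        rw [this]
        rw [eC_append_spam] at h6
        rcases h6 with h6 | h6
        · left
          refine le_trans (le_of_eq ?_) h6
          push_cast
          ring
        · right
          refine ⟨by omega, le_trans (le_of_eq ?_) h6.2⟩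
          push_cast
          ring
    · -- good
      obtain ⟨b, s, h1, h2, h3, h4, h5, h6⟩ := ih (g - 1) K (by omega) (p ++ [(t, false)])
      refine ⟨(t, false) :: b, s, ?_, ?_, ?_, h4, ?_, ?_⟩
      · intro x hx
        rcases List.mem_cons.1 hx with rfl | hx
        · rfl
        · exact h1 x hx
      · rw [List.count_cons_self, h2]; omega
      · rw [List.count_cons_of_ne (by simp), h3]
      · have : p ++ (t, false) :: b = p ++ [(t, false)] ++ b := by simp
        rw [this]
        refine h5.trans ?_
        rw [eT_append_good]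
      · have : p ++ (t, false) :: b = p ++ [(t, false)] ++ b := by simp
        rw [this]
        rw [eC_append_good] at h6
        push Not at hq
        rcases h6 with h6 | h6
        · left
          refine le_trans ?_ h6
          have hg' : (g : ℝ≥0∞) = ((g - 1 : ℕ) : ℝ≥0∞) + 1 := by
            rw [← Nat.cast_one (R := ℝ≥0∞), ← Nat.cast_add]
            congr 1; omega
          rw [hg', mul_add, mul_one]
          calc eC A μ p + s + (M * ((g - 1 : ℕ) : ℝ≥0∞) + M)
              = (eC A μ p + M) + s + M * ((g - 1 : ℕ) : ℝ≥0∞) := by ring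
            _ ≤ _ := by gcongr
        · right
          refine ⟨h6.1, le_trans ?_ h6.2⟩
          gcongr
          exact le_self_add

/-- All time steps. -/
lemma steps [IsProbabilityMeasure μ] (M g : ℕ) (L : ℕ) :
    ∃ (p : List (ℕ × Bool)) (S : ℕ), (p.map Prod.fst).Pairwise (· ≤ ·) ∧
      (∀ x ∈ p, 1 ≤ x.1 ∧ x.1 ≤ L) ∧
      (∀ t, 1 ≤ t → t ≤ L → p.count (t, false) = g ∧ p.count (t, true) ≤ 2 * M * g) ∧
      eT A μ p ≤ M * S ∧ (S : ℝ≥0∞) + 2 * M * g * L ≤ 2 * eC A μ p := by
  induction L with
  | zero =>
    refine ⟨[], 0, by simp, by simp, ?_, ?_, by simp⟩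
    · intro t h1 h2; omega
    · simp [eT, tot]
  | succ L ih =>
    obtain ⟨p, S, h1, h2, h3, h4, h5⟩ := ih
    obtain ⟨b, s, k1, k2, k3, k4, k5, k6⟩ := step A μ M (L + 1) (g + 2 * M * g) g (2 * M * g) rfl p
    have hp : ∀ c, p.count (L + 1, c) = 0 := by
      intro c
      rw [List.count_eq_zero]
      intro h
      have := (h2 _ h).2
      simp at this
    have hb : ∀ t c, t ≠ L + 1 → b.count (t, c) = 0 := by
      intro t c ht
      rw [List.count_eq_zero]
      intro h
      exact ht (k1 _ h)
    refine ⟨p ++ b, S + s, ?_, ?_, ?_, ?_, ?_⟩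
    · rw [List.map_append, List.pairwise_append]
      refine ⟨h1, ?_, ?_⟩
      · rw [List.pairwise_map]
        refine List.pairwise_of_forall_mem_list ?_
        intro x hx y hy
        rw [k1 x hx, k1 y hy]
      · intro x hx y hy
        obtain ⟨x', hx', rfl⟩ := List.mem_map.1 hx
        obtain ⟨y', hy', rfl⟩ := List.mem_map.1 hy
        rw [k1 y' hy']
        exact (h2 x' hx').2.trans (Nat.le_succ _)
    · intro x hx
      rcases List.mem_append.1 hx with hx | hx
      · exact ⟨(h2 x hx).1, (h2 x hx).2.trans (Nat.le_succ _)⟩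
      · rw [k1 x hx]; omega
    · intro t ht1 ht2
      rw [List.count_append, List.count_append]
      rcases eq_or_ne t (L + 1) with rfl | hne
      · rw [hp, hp, k2, k3]
        omega
      · rw [hb t _ hne, hb t _ hne]
        have := h3 t ht1 (by omega)
        omega
    · refine k5.trans ?_
      push_cast
      rw [mul_add]
      gcongr
    · have key : 2 * eC A μ p + s + 2 * M * g ≤ 2 * eC A μ (p ++ b) := by
        rcases k6 with k6 | ⟨hs, k6⟩
        · calc 2 * eC A μ p + s + 2 * M * g ≤ 2 * eC A μ p + s + 2 * M * g + s := le_self_add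
            _ = 2 * (eC A μ p + s + M * g) := by ring
            _ ≤ _ := by gcongr
        · calc 2 * eC A μ p + s + 2 * M * g = 2 * (eC A μ p + s) := by
                have : (s : ℝ≥0∞) = 2 * M * g := by rw [hs]; push_cast; ring
                rw [this]; ring
            _ ≤ _ := by gcongr
      refine le_trans ?_ key
      push_cast
      calc (S : ℝ≥0∞) + s + 2 * M * g * (L + 1) = (S + 2 * M * g * L) + s + 2 * M * g := by ring
        _ ≤ _ := by gcongr

lemma good_eq (p : List (ℕ × Bool)) :
    (∑ i : Fin p.length, if p[i].2 = true then (0 : ℝ≥0∞) else 1) = (p.countP fun x => !x.2 : ℕ) := by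
  induction p with
  | nil => simp
  | cons x l ih =>
    rw [List.countP_cons]
    simp only [List.length_cons]
    rw [Fin.sum_univ_succ]
    simp only [Fin.getElem_fin, Fin.val_zero, Fin.val_succ, List.getElem_cons_zero,
      List.getElem_cons_succ] at ih ⊢
    rw [ih, add_comm]
    push_cast
    obtain ⟨x1, x2⟩ := x
    cases x2 <;> simp

lemma count_eq (g : ℕ) : ∀ (L : ℕ) (p : List (ℕ × Bool)), (∀ x ∈ p, 1 ≤ x.1 ∧ x.1 ≤ L) →
    (∀ t, 1 ≤ t → t ≤ L → p.count (t, false) = g) → (p.countP fun x => !x.2) = g * L := by
  intro L p h1 h2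
  have h3 : (p.countP fun x => !x.2) = ∑ t ∈ Finset.Icc 1 L, p.count (t, false) := by
    clear h2
    induction p with
    | nil => simp
    | cons x l ih =>
      have ih' := ih fun y hy => h1 y (List.mem_cons_of_mem _ hy)
      have hx := h1 x (List.mem_cons_self ..)
      simp only [List.countP_cons, List.count_cons]
      rw [Finset.sum_add_distrib, ← ih']
      congr 1
      obtain ⟨a, b⟩ := x
      cases b
      · simp only [Bool.not_false, if_true]
        rw [Finset.sum_eq_single a]
        · simp
        · intro t _ ht
          simp [Ne.symm ht]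
        · intro h
          exact absurd (Finset.mem_Icc.2 hx) h
      · simp
  rw [h3, Finset.sum_congr rfl (fun t ht => h2 t (Finset.mem_Icc.1 ht).1 (Finset.mem_Icc.1 ht).2)]
  simp [mul_comm]

lemma real_bound (a c M : ℝ) (ha : 0 ≤ a) (ha1 : a < 1) (hc : 0 ≤ c) (hM : 0 < M) :
    ∃ K : ℝ, ∀ σ : ℝ, 0 ≤ σ → c * (M * σ) ^ a ≤ σ / 2 + K := by
  have h1 : Filter.Tendsto (fun x : ℝ => c * M * x ^ (-(1 - a))) Filter.atTop (nhds (c * M * 0)) :=
    (tendsto_rpow_neg_atTop (by linarith)).const_mul _
  rw [mul_zero] at h1
  obtain ⟨X, hX⟩ := Filter.eventually_atTop.1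
    ((h1.eventually (gt_mem_nhds (by norm_num : (0 : ℝ) < 1 / 2))).and
      (Filter.eventually_gt_atTop 0))
  refine ⟨c * (|X| + 1) ^ a, fun σ hσ => ?_⟩
  have hX0 : (0 : ℝ) ≤ |X| + 1 := by positivity
  by_cases h : M * σ ≤ |X| + 1
  · have : (M * σ) ^ a ≤ (|X| + 1) ^ a := Real.rpow_le_rpow (by positivity) h ha
    have := mul_le_mul_of_nonneg_left this hc
    linarith
  · push Not at h
    obtain ⟨h2, h3⟩ := hX (M * σ) (by linarith [le_abs_self X])
    have h4 : (M * σ) ^ a = (M * σ) * (M * σ) ^ (-(1 - a)) := by
      nth_rewrite 2 [← Real.rpow_one (M * σ)]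
      rw [← Real.rpow_add h3]
      congr 1; ring
    have h5 : c * (M * σ) ^ a ≤ σ / 2 := by
      rw [h4]
      have : c * (M * σ * (M * σ) ^ (-(1 - a))) = σ * (c * M * (M * σ) ^ (-(1 - a))) := by ring
      rw [this]
      have := mul_le_mul_of_nonneg_left h2.le hσ
      linarith
    have : 0 ≤ c * (|X| + 1) ^ a := by positivity
    linarith

end

/-- **The conjecture is false, and 1 is the best exponent.** Let `0 ≤ a < 1` and `c ≥ 0`.
For all sufficiently large `g` there is `K` such that for every number `L ≥ 1` of time steps, every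
error probability `ε < 1/2` of the classifier and every pricing algorithm (which may depend on all
of these numbers) the adversary can fix in advance a sequence of posts, in time steps `1, …, L`,
with exactly `g` good posts and at most `K` spam posts in every time step, for which
`E[C] > c (E[T] ^ a + E[P_G])`. On the other hand, always charging `1` gives `C = T + P_G` for
every sequence of published posts. -/
theorem result :
    (∀ a c : ℝ, 0 ≤ a → a < 1 → 0 ≤ c → ∃ g₀ : ℕ, ∀ g : ℕ, g₀ ≤ g → ∃ K : ℕ,
      ∀ L : ℕ, 1 ≤ L → ∀ ε : unitInterval, (ε : ℝ) < 1 / 2 → ∀ A : Pricing.{u},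
        ∃ posts : List (ℕ × Bool), (posts.map Prod.fst).Pairwise (· ≤ ·) ∧
          (∀ p ∈ posts, 1 ≤ p.1 ∧ p.1 ≤ L) ∧
          (∀ t, 1 ≤ t → t ≤ L → posts.count (t, false) = g ∧ posts.count (t, true) ≤ K) ∧
          ENNReal.ofReal c * ((∫⁻ z, rateT A posts L z ∂randomness A ε) ^ a + rateG posts L)
            < ∫⁻ z, rateC A posts L z ∂randomness A ε) ∧
    ∀ (posts : List (ℕ × Bool)) (L : ℕ) (z : chargeOne.{u}.Seed × (ℕ → Bool)),
      rateC chargeOne.{u} posts L z = rateT chargeOne.{u} posts L z + rateG posts L := by
  refine ⟨?_, fun posts L z => ?_⟩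
  swap
  · unfold rateC rateT rateG
    rw [← ENNReal.add_div, ← Finset.sum_add_distrib]
    congr 1
    refine Finset.sum_congr rfl fun i _ => ?_
    have h : price chargeOne.{u} posts z i = 1 := by simp [price, chargeOne]
    rw [h]
    split_ifs <;> simp
  intro a c ha ha1 hc
  obtain ⟨M, hM⟩ := exists_nat_ge (c + 1)
  have hM0 : (0 : ℝ) < M := by linarith
  obtain ⟨K₀, hK₀⟩ := real_bound a c M ha ha1 hc hM0
  obtain ⟨g₀, hg₀⟩ := exists_nat_gt K₀
  refine ⟨g₀, fun g hg => ⟨2 * M * g, fun L hL ε _ A => ?_⟩⟩
  have hgK : K₀ < g := hg₀.trans_le (by exact_mod_cast hg)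
  have : IsProbabilityMeasure (randomness A ε) := by
    unfold randomness; infer_instance
  obtain ⟨p, S, h1, h2, h3, h4, h5⟩ := steps A (randomness A ε) M g L
  refine ⟨p, h1, h2, h3, ?_⟩
  have hL0 : (L : ℝ≥0∞) ≠ 0 := by
    simp only [ne_eq, Nat.cast_eq_zero]; omega
  have hLt : (L : ℝ≥0∞) ≠ ⊤ := ENNReal.natCast_ne_top _
  have hLr : (0 : ℝ) < L := by exact_mod_cast hL
  -- the rates
  have eqT : ∫⁻ z, rateT A p L z ∂randomness A ε = eT A (randomness A ε) p / L := by
    unfold rateT eT tot
    simp only [div_eq_mul_inv]
    rw [lintegral_mul_const' _ _ (ENNReal.inv_ne_top.2 hL0)]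
  have eqC : ∫⁻ z, rateC A p L z ∂randomness A ε = eC A (randomness A ε) p / L := by
    unfold rateC eC tot
    simp only [div_eq_mul_inv]
    rw [lintegral_mul_const' _ _ (ENNReal.inv_ne_top.2 hL0)]
  have eqG : rateG p L = g := by
    unfold rateG
    rw [good_eq, count_eq g L p h2 (fun t a b => (h3 t a b).1)]
    push_cast
    rw [ENNReal.mul_div_cancel_right hL0 hLt]
  rw [eqT, eqC, eqG]
  set σ : ℝ := S / L with hσ
  have hσ0 : 0 ≤ σ := by positivity
  -- upper bound for the left-hand side
  have hT : eT A (randomness A ε) p / L ≤ ENNReal.ofReal (M * σ) := by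
    rw [hσ, ← mul_div_assoc, ENNReal.ofReal_div_of_pos hLr,
      ENNReal.ofReal_mul hM0.le, ENNReal.ofReal_natCast, ENNReal.ofReal_natCast,
      ENNReal.ofReal_natCast]
    gcongr
  have hlhs : ENNReal.ofReal c * ((eT A (randomness A ε) p / L) ^ a + g)
      ≤ ENNReal.ofReal (c * ((M * σ) ^ a + g)) := by
    rw [ENNReal.ofReal_mul hc, ENNReal.ofReal_add (by positivity) (by positivity),
      ENNReal.ofReal_natCast, ← ENNReal.ofReal_rpow_of_nonneg (by positivity) ha]
    gcongr
  -- lower bound for the right-hand side
  have hrhs : ENNReal.ofReal (σ / 2 + M * g) ≤ eC A (randomness A ε) p / L := by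
    rw [ENNReal.le_div_iff_mul_le (Or.inl hL0) (Or.inl hLt)]
    have e1 : ENNReal.ofReal (σ / 2 + M * g) * L = ENNReal.ofReal ((S + 2 * M * g * L) / 2) := by
      rw [← ENNReal.ofReal_natCast, ← ENNReal.ofReal_mul (by positivity)]
      congr 1
      rw [hσ]
      field_simp
    rw [e1, ENNReal.ofReal_div_of_pos (by norm_num)]
    rw [ENNReal.div_le_iff_le_mul (by simp) (by simp)]
    rw [mul_comm (eC _ _ _)]
    refine le_trans (le_of_eq ?_) (h5.trans (le_of_eq ?_))
    · rw [ENNReal.ofReal_add (by positivity) (by positivity), ENNReal.ofReal_natCast,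
        show (2 * M * g * L : ℝ) = ((2 * M * g * L : ℕ) : ℝ) by push_cast; ring,
        ENNReal.ofReal_natCast]
      push_cast
      ring
    · simp
  refine hlhs.trans_lt (lt_of_lt_of_le ?_ hrhs)
  rw [ENNReal.ofReal_lt_ofReal_iff_of_nonneg (by positivity)]
  have h6 := hK₀ σ hσ0
  have hg0 : (0 : ℝ) ≤ g := by positivity
  nlinarith [mul_le_mul_of_nonneg_right hM hg0]

end Pool.Agent.Results.MP_590456_lc.NoSublinearBound
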